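import Pool.Agent.Y114.RM.Stm
import Pool.Agent.Y114.MU.JM
import Pool.Agent.TH731.J1772

/-!
# The lemma of Morozov and the theorem of Jacobson and Morozov for the trace form
-/

set_option autoImplicit false

universe u v

namespace Pool.Agent.Y37.RM

open Module Pool.Agent.Y114.RM Pool.Agent.Y114.MU

section aux

variable {K : Type u} [Field K] [CharZero K] {V : Type v} [AddCommGroup V] [Module K V]
  [FiniteDimensional K V] {L : Submodule K (End K V)}

/-- the adjoint action on `L` -/
private noncomputable def adL (hL : IsLie L) (X : End K V) (hX : X ∈ L) : End K L :=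
  (adE X).restrict (hL.adE_mem hX)

omit [CharZero K] [FiniteDimensional K V] in
private theorem adL_coe (hL : IsLie L) (X : End K V) (hX : X ∈ L) (Y : L) :
    ((adL hL X hX Y : L) : End K V) = X * Y - Y * X := rfl

omit [CharZero K] [FiniteDimensional K V] in
private theorem adL_nil (hL : IsLie L) (X : End K V) (hX : X ∈ L) (hn : IsNilpotent X) :
    IsNilpotent (adL hL X hX) := by
  have h1 : IsNilpotent (adE X) := by
    obtain ⟨n, hn⟩ := hn
    have hc : Commute (LinearMap.mulLeft K X) (LinearMap.mulRight K X) := by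
      apply LinearMap.ext
      intro c
      exact (mul_assoc X c X).symm
    exact hc.isNilpotent_sub ⟨n, by rw [LinearMap.pow_mulLeft, hn, LinearMap.mulLeft_zero_eq_zero]⟩
      ⟨n, by rw [LinearMap.pow_mulRight, hn, LinearMap.mulRight_zero_eq_zero]⟩
  obtain ⟨n, hn⟩ := h1
  refine ⟨n, ?_⟩
  have hk : ∀ (k : ℕ) (Y : L), ((((adL hL X hX) ^ k) Y : L) : End K V) =
      ((adE X) ^ k) (Y : End K V) := by
    intro k
    induction k with
    | zero => intro Y; rfl
    | succ k ih =>
      intro Y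
      rw [pow_succ', Module.End.mul_apply, adL_coe, ih, pow_succ', Module.End.mul_apply, adE_apply]
  apply LinearMap.ext
  intro Y
  apply Subtype.ext
  rw [hk, hn]
  rfl

private theorem jm1_aux (hL : IsLie L) (hnd : NonDeg L) (N : End K V) (hN : N ∈ L)
    (hnil : IsNilpotent N) (H : End K V) (hH : H ∈ L) (hHN : H * N - N * H = 2 • N)
    (hz : ∀ z ∈ L, N * z = z * N → LinearMap.trace K V (z * H) = 0) :
    ∃ f ∈ L, N * f - f * N = H ∧ H * f - f * H = -(2 • f) := by
  obtain ⟨f0, hf0, h0⟩ := exists_preimage L hL hnd hN hH (fun z hz' h => hz z hz' h.symm)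
  have r1 : adL hL N hN * adL hL f0 hf0 - adL hL f0 hf0 * adL hL N hN = adL hL H hH := by
    apply LinearMap.ext
    intro Y
    apply Subtype.ext
    rw [LinearMap.sub_apply, Submodule.coe_sub, Module.End.mul_apply, Module.End.mul_apply,
      adL_coe, adL_coe, adL_coe, adL_coe, adL_coe, ← h0]
    noncomm_ring
  have r2 : adL hL H hH * adL hL N hN - adL hL N hN * adL hL H hH = 2 • adL hL N hN := by
    apply LinearMap.ext
    intro Y
    apply Subtype.ext
    rw [two_smul, LinearMap.sub_apply, Submodule.coe_sub, Module.End.mul_apply,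
      Module.End.mul_apply, adL_coe, adL_coe, adL_coe, adL_coe, LinearMap.add_apply,
      Submodule.coe_add, adL_coe]
    have h1 : H * (N * (Y : End K V) - Y * N) - (N * Y - Y * N) * H -
        (N * (H * Y - Y * H) - (H * Y - Y * H) * N) =
        (H * N - N * H) * Y - Y * (H * N - N * H) := by noncomm_ring
    rw [h1, hHN]
    noncomm_ring
  have hmem : H * f0 - f0 * H + 2 • f0 ∈ L := L.add_mem (hL H hH f0 hf0) (L.smul_of_tower_mem 2 hf0)
  have h2 : adL hL N hN ⟨H * f0 - f0 * H + 2 • f0, hmem⟩ = 0 := by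
    apply Subtype.ext
    rw [adL_coe]
    show N * (H * f0 - f0 * H + 2 • f0) - (H * f0 - f0 * H + 2 • f0) * N = 0
    have h3 : N * (H * f0 - f0 * H + 2 • f0) - (H * f0 - f0 * H + 2 • f0) * N =
        -((H * N - N * H) * f0 - f0 * (H * N - N * H)) + (H * (N * f0 - f0 * N) -
          (N * f0 - f0 * N) * H) + 2 • (N * f0 - f0 * N) := by noncomm_ring
    rw [h3, hHN, h0, sub_self, add_zero]
    have h4 : 2 • N * f0 - f0 * 2 • N = 2 • (N * f0 - f0 * N) := by noncomm_ring
    rw [h4, h0]
    abel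
  obtain ⟨y, hy1, hy2⟩ := Pool.Agent.TH731.JM.exists_of_ker (adL hL N hN) (adL hL f0 hf0)
    (adL hL H hH) (adL_nil hL N hN hnil) r1 r2 _ h2
  have hy1' : N * (y : End K V) - y * N = 0 := by
    have := congrArg Subtype.val hy1
    rwa [adL_coe] at this
  have hy2' : H * (y : End K V) - y * H + 2 • (y : End K V) = H * f0 - f0 * H + 2 • f0 := by
    have h5 := congrArg Subtype.val hy2
    rw [Submodule.coe_add, adL_coe, Submodule.coe_smul] at h5
    have h6 : (2 : K) • (y : End K V) = 2 • (y : End K V) := by rw [two_smul, two_smul]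
    rw [h6] at h5
    exact h5
  refine ⟨f0 - y, L.sub_mem hf0 y.2, ?_, ?_⟩
  · have h7 : N * (f0 - y) - (f0 - y) * N = (N * f0 - f0 * N) - (N * y - y * N) := by noncomm_ring
    rw [h7, hy1', sub_zero, h0]
  · have h8 : H * (f0 - y) - (f0 - y) * H = (H * f0 - f0 * H + 2 • f0) -
        (H * y - y * H + 2 • (y : End K V)) - 2 • (f0 - y) := by
      rw [smul_sub]
      noncomm_ring
    rw [h8, hy2', sub_self, zero_sub]

private theorem mem_sq (hL : IsLie L) (hnd : NonDeg L) (N : End K V) (hN : N ∈ L)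
    (hnil : IsNilpotent N) : ∃ g ∈ L, N * (N * g - g * N) - (N * g - g * N) * N = N := by
  classical
  by_contra hcon
  have hxW : (⟨N, hN⟩ : L) ∉ LinearMap.range (adL hL N hN * adL hL N hN) := by
    rintro ⟨y, hy⟩
    refine hcon ⟨y.1, y.2, ?_⟩
    have := congrArg Subtype.val hy
    rwa [Module.End.mul_apply, adL_coe, adL_coe] at this
  obtain ⟨f, hfx, hf⟩ := Submodule.exists_le_ker_of_notMem hxW
  let B : LinearMap.BilinForm K L := (TF (k := K) (V := V)).restrict L
  have hBapp : ∀ a b : L, B a b = LinearMap.trace K V (a.1 * b.1) := fun a b => rfl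
  have hB : B.Nondegenerate := by
    have hs : B.IsSymm := ⟨fun a b => by
      change LinearMap.trace K V (a.1 * b.1) = LinearMap.trace K V (b.1 * a.1)
      rw [LinearMap.trace_mul_comm]⟩
    refine (hs.isRefl.nondegenerate_iff_separatingLeft).2 ?_
    intro a ha
    exact Subtype.ext (hnd a.1 a.2 fun Y hY => ha ⟨Y, hY⟩)
  set z : L := (B.toDual hB).symm f with hz
  have hzf : ∀ y, B z y = f y := fun y => LinearMap.BilinForm.apply_toDual_symm_apply ..
  have hmove : ∀ a b : End K V, LinearMap.trace K V ((N * a - a * N) * b) =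
      - LinearMap.trace K V (a * (N * b - b * N)) := by
    intro a b
    have h3 : LinearMap.trace K V (N * a * b) = LinearMap.trace K V (a * (b * N)) := by
      rw [mul_assoc, LinearMap.trace_mul_comm, mul_assoc]
    rw [sub_mul, mul_sub, map_sub, map_sub, h3, mul_assoc]
    ring
  have hzN : N * (N * z.1 - z.1 * N) - (N * z.1 - z.1 * N) * N = 0 := by
    refine hnd _ (hL _ hN _ (hL _ hN _ z.2)) fun Y hY => ?_
    have h1 : f ((adL hL N hN * adL hL N hN) ⟨Y, hY⟩) = 0 := hf ⟨_, rfl⟩
    rw [← hzf, hBapp, Module.End.mul_apply, adL_coe, adL_coe] at h1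
    rw [hmove, hmove, neg_neg]
    exact h1
  have h1 := Pool.Agent.TH731.JM.trace_mul_eq_zero N z.1 hnil (sub_eq_zero.1 hzN)
  have h2 := hzf ⟨N, hN⟩
  rw [hBapp, LinearMap.trace_mul_comm, h1] at h2
  exact hfx h2.symm

end aux

theorem jm1 : S_JM1.{u, v} := by
  intro K _ _ V _ _ _ L hL hnd N hN hnil H hH hHN hz
  exact jm1_aux hL hnd N hN hnil H hH hHN hz

theorem jm2 : S_JM2.{u, v} := by
  intro K _ _ V _ _ _ L hL hnd N hN hnil
  obtain ⟨g, hg, hg2⟩ := mem_sq hL hnd N hN hnil
  have hH : -(2 • (N * g - g * N)) ∈ L := L.neg_mem (L.smul_of_tower_mem 2 (hL N hN g hg))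
  have h1 : -(2 • (N * g - g * N)) * N - N * -(2 • (N * g - g * N)) = 2 • N := by
    have h2 : -(2 • (N * g - g * N)) * N - N * -(2 • (N * g - g * N)) =
        2 • (N * (N * g - g * N) - (N * g - g * N) * N) := by noncomm_ring
    rw [h2, hg2]
  obtain ⟨f, hf, hf1, hf2⟩ := jm1_aux hL hnd N hN hnil _ hH h1 (fun z hz hzN => by
    have h3 : LinearMap.trace K V (z * (N * g)) = LinearMap.trace K V (z * (g * N)) := by
      have h4 : LinearMap.trace K V (z * (g * N)) = LinearMap.trace K V (N * z * g) := by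
        rw [← mul_assoc, LinearMap.trace_mul_comm, mul_assoc]
      rw [h4, hzN, mul_assoc]
    rw [mul_neg, mul_smul_comm, map_neg, map_nsmul, mul_sub, map_sub, h3, sub_self, smul_zero,
      neg_zero])
  exact ⟨_, hH, f, hf, h1, hf1, hf2⟩

end Pool.Agent.Y37.RM
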